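import Mathlib
import Pool.Agent.Lib_helper42.TwoSq.Barrier

/-! A barrier for the gaps between sums of two squares: below the classical constant `2√2` it is
not enough to look at few columns `x = √n - O(1)`. -/

set_option autoImplicit false

namespace Pool.Agent.Results.MP_ba0697_nt.ColumnBarrier

/-- For every `ε > 0` there are `c > 0` and infinitely many `n` such that every sum of two squares
`x² + y²` in the open interval `(n, n + (2√2 - ε) n^{1/4})` has `|x|` and `|y|` both at distance at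
least `c log n / log log n` below `√n`. -/
theorem result (ε : ℝ) (hε : 0 < ε) : ∃ c : ℝ, 0 < c ∧ ∀ N : ℕ, ∃ n : ℕ, N ≤ n ∧ ∀ x y : ℤ,
    (n : ℝ) < (x : ℝ) ^ 2 + (y : ℝ) ^ 2 →
    (x : ℝ) ^ 2 + (y : ℝ) ^ 2 < n + (2 * Real.sqrt 2 - ε) * (n : ℝ) ^ (1 / 4 : ℝ) →
    |(x : ℝ)| ≤ Real.sqrt n - c * Real.log n / Real.log (Real.log n) ∧
    |(y : ℝ)| ≤ Real.sqrt n - c * Real.log n / Real.log (Real.log n) :=
  Pool.Agent.Lib_helper42.TwoSq.main ε hε

end Pool.Agent.Results.MP_ba0697_nt.ColumnBarrier
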